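import Pool.Agent.L0h86.JQ.StmA
import Pool.Agent.L0h86.JQ.Stm

/-!
# Project JQ: the bridge, discriminants of both signs
-/

set_option autoImplicit false
set_option linter.unusedVariables false
set_option maxHeartbeats 1000000

open scoped Classical

namespace Pool.Agent.L0h83.JQ

open Finset
open Pool.Agent.L0h1.SJ (eta ps sx pt Gv IsSol Ind cnt ak de sz sr Tu Ix Xf Sml tg IndT SolT RX DX pr
  Full Al ch kap)
open Pool.Agent.L0h86.JR (HT DD)
open Pool.Agent.L0h86.JQ

/-- inclusion-exclusion: if the events `G l` are asymptotically independent in the sense that all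
intersections have about the right size, then all patterns have about the right size -/
theorem patternS {t : ℕ} {Ω : Type} [Fintype Ω] (G : Fin t → Ω → Prop) (η : Fin t → ℝ) (δ : ℝ)
    (hδ : 0 ≤ δ) (B : ℝ) (hB : 0 < B) (hBc : (Fintype.card Ω : ℝ) = B)
    (h : ∀ s : Finset (Fin t),
      |((univ.filter fun ω => ∀ l ∈ s, G l ω).card : ℝ) / B - ∏ l ∈ s, η l| ≤ δ)
    (β : Fin t → Bool) :
    |((univ.filter fun ω => ∀ l, (G l ω ↔ β l = true)).card : ℝ) / B -
      ∏ l, (if β l = true then η l else 1 - η l)| ≤ 2 ^ t * δ := by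
  -- the coefficients
  set c : Fin t → ℝ := fun l => if β l = true then 0 else 1 with hc
  set d : Fin t → ℝ := fun l => if β l = true then 1 else -1 with hd
  set g : Fin t → Ω → ℝ := fun l ω => if G l ω then 1 else 0 with hg
  have e1 : ∀ ω, (if (∀ l, (G l ω ↔ β l = true)) then (1 : ℝ) else 0) =
      ∏ l, (d l * g l ω + c l) := by
    intro ω
    by_cases hω : ∀ l, (G l ω ↔ β l = true)
    · rw [if_pos hω]
      symm
      apply Finset.prod_eq_one
      intro l _
      have := hω l
      simp only [hd, hg, hc]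
      by_cases hb : β l = true
      · rw [if_pos hb, if_pos (this.2 hb), if_pos hb]; norm_num
      · rw [if_neg hb, if_neg (fun h => hb (this.1 h)), if_neg hb]; norm_num
    · rw [if_neg hω]
      push Not at hω
      obtain ⟨l, hl⟩ := hω
      symm
      apply Finset.prod_eq_zero (mem_univ l)
      simp only [hd, hg, hc]
      by_cases hb : β l = true
      · have : ¬ G l ω := by
          rcases hl with h | h
          · exact fun _ => h.2 hb
          · exact h.1
        rw [if_pos hb, if_neg this, if_pos hb]; norm_num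
      · have : G l ω := by
          rcases hl with h | h
          · exact h.1
          · exact absurd h.2 hb
        rw [if_neg hb, if_pos this, if_neg hb]; norm_num
  have e2 : ∀ a : Fin t → ℝ, ∏ l, (d l * a l + c l) =
      ∑ s ∈ (univ : Finset (Fin t)).powerset, (∏ l ∈ s, d l) * (∏ l ∈ univ \ s, c l) *
        ∏ l ∈ s, a l := by
    intro a
    rw [Finset.prod_add]
    refine Finset.sum_congr rfl fun s _ => ?_
    rw [Finset.prod_mul_distrib]
    ring
  have e3 : ∀ s : Finset (Fin t), ∑ ω, ∏ l ∈ s, g l ω =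
      ((univ.filter fun ω => ∀ l ∈ s, G l ω).card : ℝ) := by
    intro s
    rw [Finset.card_filter]
    push_cast
    refine Finset.sum_congr rfl fun ω _ => ?_
    by_cases hω : ∀ l ∈ s, G l ω
    · rw [if_pos hω]
      exact Finset.prod_eq_one fun l hl => by simp only [hg]; rw [if_pos (hω l hl)]
    · rw [if_neg hω]
      push Not at hω
      obtain ⟨l, hl, hl'⟩ := hω
      exact Finset.prod_eq_zero hl (by simp only [hg]; rw [if_neg hl'])
  have e4 : ((univ.filter fun ω => ∀ l, (G l ω ↔ β l = true)).card : ℝ) =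
      ∑ s ∈ (univ : Finset (Fin t)).powerset, (∏ l ∈ s, d l) * (∏ l ∈ univ \ s, c l) *
        ((univ.filter fun ω => ∀ l ∈ s, G l ω).card : ℝ) := by
    rw [Finset.card_filter]
    push_cast
    rw [Finset.sum_congr rfl fun ω _ => (e1 ω).trans (e2 fun l => g l ω), Finset.sum_comm]
    refine Finset.sum_congr rfl fun s _ => ?_
    rw [← Finset.mul_sum, e3]
  have e5 : ∏ l, (if β l = true then η l else 1 - η l) =
      ∑ s ∈ (univ : Finset (Fin t)).powerset, (∏ l ∈ s, d l) * (∏ l ∈ univ \ s, c l) *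
        ∏ l ∈ s, η l := by
    have h1 : ∏ l, (if β l = true then η l else 1 - η l) = ∏ l, (d l * η l + c l) := by
      refine Finset.prod_congr rfl fun l _ => ?_
      simp only [hd, hc]
      split_ifs <;> ring
    rw [h1, e2 η]
  have e6 : ∀ s : Finset (Fin t), |(∏ l ∈ s, d l) * (∏ l ∈ univ \ s, c l)| ≤ 1 := by
    intro s
    rw [abs_mul, Finset.abs_prod, Finset.abs_prod]
    refine mul_le_one₀ (Finset.prod_le_one (fun _ _ => abs_nonneg _) fun l _ => ?_)
      (Finset.prod_nonneg fun _ _ => abs_nonneg _)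
      (Finset.prod_le_one (fun _ _ => abs_nonneg _) fun l _ => ?_)
    · simp only [hd]; split_ifs <;> norm_num
    · simp only [hc]; split_ifs <;> norm_num
  rw [e4, e5, Finset.sum_div, ← Finset.sum_sub_distrib]
  refine (Finset.abs_sum_le_sum_abs _ _).trans ?_
  have e7 : ∀ s ∈ (univ : Finset (Fin t)).powerset,
      |(∏ l ∈ s, d l) * (∏ l ∈ univ \ s, c l) *
        ((univ.filter fun ω => ∀ l ∈ s, G l ω).card : ℝ) / B -
        (∏ l ∈ s, d l) * (∏ l ∈ univ \ s, c l) * ∏ l ∈ s, η l| ≤ δ := by
    intro s _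
    have : (∏ l ∈ s, d l) * (∏ l ∈ univ \ s, c l) *
        ((univ.filter fun ω => ∀ l ∈ s, G l ω).card : ℝ) / B -
        (∏ l ∈ s, d l) * (∏ l ∈ univ \ s, c l) * ∏ l ∈ s, η l =
        ((∏ l ∈ s, d l) * (∏ l ∈ univ \ s, c l)) *
        (((univ.filter fun ω => ∀ l ∈ s, G l ω).card : ℝ) / B - ∏ l ∈ s, η l) := by ring
    rw [this, abs_mul]
    calc _ ≤ 1 * δ := mul_le_mul (e6 s) (h s) (abs_nonneg _) zero_le_one
      _ = δ := one_mul _
  refine (Finset.sum_le_sum e7).trans ?_
  rw [Finset.sum_const, Finset.card_powerset, Finset.card_univ, Fintype.card_fin, nsmul_eq_mul]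
  push_cast
  exact le_rfl

section
variable {t n : ℕ} {U : Fin t → Type} [∀ l, Fintype (U l)] {J : Type} [Fintype J] [LinearOrder J]
  {w u : ∀ l, U l ⊕ J → ZMod 2} {N : ∀ l, U l ⊕ J → U l ⊕ J → ZMod 2}
  {x : Fin t → Fin n → ZMod 2} {JR : Fin n → Finset J}

/-- a subfamily satisfies the hypotheses -/
theorem hl_of {Q : ℕ} {σg : Fin t → ZMod 2} (h : HLS σg w u N) (h' : HT u N x JR Q) {t' : ℕ} (φ : Fin t' → Fin t)
    (hφ : Function.Injective φ) (l₀ : Fin t) :
    HlS (U := fun i => U (φ i)) (fun i => σg (φ i)) (fun i => w (φ i)) (fun i v => u (φ i) (Sum.inl v))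
      (fun k => u l₀ (Sum.inr k)) (fun i => N (φ i))
      (fun k k' => N l₀ (Sum.inr k) (Sum.inr k')) (fun i r => x (φ i) r) JR where
  w1 i k := h.w1 _ k
  su i := by
    have h1 := h.u1 (φ i)
    rw [Fintype.sum_sum_type] at h1
    rw [← h1]
    congr 1
    exact Finset.sum_congr rfl fun k _ => h.uJ _ _ k
  rc i a b hab := by
    have e : ∀ a : U (φ i) ⊕ J, Sum.elim (fun v => u (φ i) (Sum.inl v))
        (fun k => u l₀ (Sum.inr k)) a = u (φ i) a := by
      rintro (v | k)
      · rfl
      · exact h.uJ _ _ k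
    rw [e, e]
    exact h.rel (φ i) a b hab
  w0 i v hv := h.w0 (φ i) v hv
  com i k k' hk := h.NJ _ _ k k' hk
  lab i b e hb := by
    obtain ⟨k, hk⟩ := h.nd (φ i) b e hb
    refine ⟨k, ?_⟩
    rw [h.uJ l₀ (φ i) k]
    exact hk
  jr r k hk := by
    refine ⟨(h'.typ r k hk l₀ l₀).1, fun i i' => ?_⟩
    have h1 := (h'.typ r k hk (φ i) (φ i')).2
    have e : ∀ i : Fin t', de (U := fun i => U (φ i)) (fun i => N (φ i)) i k = DD N (φ i) k :=
      fun i => rfl
    rw [e, e]
    have h2 : ∀ a b c d : ZMod 2, a + b = c + d → a + c = b + d := by decide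
    exact h2 _ _ _ _ h1
  sep i i' hi := h'.sep _ _ fun hc => hi (hφ hc)

end

/-- **The bridge.** -/
theorem t_BRGS (hLA : S_LAJS) : S_LATS := by
  intro t n σg ε hε
  have hδ : 0 < ε / 2 ^ t := by positivity
  choose C₁ hC using fun (t' : ℕ) (sg' : Fin t' → ZMod 2) => hLA t' n sg' (ε / 2 ^ t) hδ
  obtain ⟨C, hCdef⟩ : ∃ C : ℕ → ℕ, C = fun t' => ∑ sg' : Fin t' → ZMod 2, C₁ t' sg' := ⟨_, rfl⟩
  have hCle : ∀ (t' : ℕ) (sg' : Fin t' → ZMod 2), C₁ t' sg' ≤ C t' := by
    intro t' sg'
    rw [hCdef]
    exact Finset.single_le_sum (f := C₁ t') (fun _ _ => Nat.zero_le _) (Finset.mem_univ sg')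
  refine ⟨∑ j ∈ range (t + 1), C j, ∑ j ∈ range (t + 1), C j, ?_⟩
  intro U _ J _ _ w u N x JR h h' β
  have key := patternS (Ω := ps J → ZMod 2) (fun l σ => Gv (pt (N l) (sx σ)))
    (fun l => pQ (σg l)) (ε / 2 ^ t)
    hδ.le ((2 : ℝ) ^ (ps J).card) (by positivity)
    (by
      rw [Fintype.card_fun, ZMod.card, Fintype.card_coe]
      push_cast
      rfl) ?_ β
  · have e : (2 : ℝ) ^ t * (ε / 2 ^ t) = ε := by
      field_simp
    rw [e] at key
    exact key
  · intro s
    rcases s.eq_empty_or_nonempty with rfl | ⟨l₀, hl₀⟩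
    · have e1 : (univ.filter fun ω : ps J → ZMod 2 => ∀ l ∈ (∅ : Finset (Fin t)),
          Gv (pt (N l) (sx ω))) = univ := by
        refine Finset.filter_true_of_mem fun ω _ l hl => ?_
        exact absurd hl (Finset.notMem_empty l)
      rw [e1, Finset.card_univ, Fintype.card_fun, ZMod.card, Fintype.card_coe, Finset.prod_empty]
      push_cast
      rw [div_self (by positivity), sub_self, abs_zero]
      exact hδ.le
    · have hcard : s.card ∈ range (t + 1) := by
        rw [mem_range]
        have := Finset.card_le_univ s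
        rw [Fintype.card_fin] at this
        omega
      set φ : Fin s.card → Fin t := fun i => (s.equivFin.symm i : Fin t) with hφ
      have hφi : Function.Injective φ := fun i j hij =>
        s.equivFin.symm.injective (Subtype.ext hij)
      have hsz : C s.card * sz (fun i => U (φ i)) ≤
          (∑ j ∈ range (t + 1), C j) * ∑ l, Fintype.card (U l) + ∑ j ∈ range (t + 1), C j := by
        have h1 : C s.card ≤ ∑ j ∈ range (t + 1), C j :=
          Finset.single_le_sum (f := C) (fun _ _ => Nat.zero_le _) hcard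
        have h2 : ∑ i, Fintype.card (U (φ i)) ≤ ∑ l, Fintype.card (U l) := by
          have h3 : ∑ i, Fintype.card (U (φ i)) =
              ∑ l ∈ univ.image φ, Fintype.card (U l) := by
            rw [Finset.sum_image fun i _ j _ hij => hφi hij]
          rw [h3]
          exact Finset.sum_le_sum_of_subset (Finset.subset_univ _)
        have h4 : sz (fun i => U (φ i)) ≤ ∑ l, Fintype.card (U l) + 1 :=
          Nat.add_le_add_right h2 1
        calc C s.card * sz (fun i => U (φ i))
            ≤ (∑ j ∈ range (t + 1), C j) * (∑ l, Fintype.card (U l) + 1) :=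
              Nat.mul_le_mul h1 h4
          _ = _ := by ring
      have hsz1 : C₁ s.card (fun i => σg (φ i)) * sz (fun i => U (φ i)) ≤
          (∑ j ∈ range (t + 1), C j) * ∑ l, Fintype.card (U l) + ∑ j ∈ range (t + 1), C j :=
        (Nat.mul_le_mul_right _ (hCle _ _)).trans hsz
      have h1 := hC s.card (fun i => σg (φ i)) (fun i => U (φ i)) J (fun i => w (φ i))
        (fun i v => u (φ i) (Sum.inl v)) (fun k => u l₀ (Sum.inr k)) (fun i => N (φ i))
        (fun k k' => N l₀ (Sum.inr k) (Sum.inr k')) (fun i r => x (φ i) r) JR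
        (hl_of h h' φ hφi l₀) (hsz1.trans (h'.three l₀)) (fun r => hsz1.trans (h'.card r))
      have e2 : (univ.filter fun ω : ps J → ZMod 2 => ∀ l ∈ s, Gv (pt (N l) (sx ω))) =
          univ.filter fun ω : ps J → ZMod 2 => ∀ i : Fin s.card, Gv (pt (N (φ i)) (sx ω)) := by
        ext ω
        rw [mem_filter, mem_filter]
        refine and_congr_right fun _ => ⟨fun hω i => hω _ (s.equivFin.symm i).2, fun hω l hl => ?_⟩
        have h2 := hω (s.equivFin ⟨l, hl⟩)
        have h3 : φ (s.equivFin ⟨l, hl⟩) = l := by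
          simp only [hφ, Equiv.symm_apply_apply]
        rw [h3] at h2
        exact h2
      have e3 : ∏ i : Fin s.card, pS (σg (φ i)) = ∏ l ∈ s, pQ (σg l) := by
        rw [← Finset.prod_coe_sort s (fun l => pQ (σg l))]
        exact Equiv.prod_comp s.equivFin.symm (fun l : s => pQ (σg l))
      rw [e2, ← e3]
      exact h1

end Pool.Agent.L0h83.JQ
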